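import Mathlib
import Pool.Agent.Helper291.BentPot

/-! A potential with a polynomial dependence on the accuracy. -/

set_option autoImplicit false

namespace Pool.Agent.Y371.Bent

open Finset Pool.Agent.Helper291.Bent

/-- truncated quadratic potential -/
noncomputable def pq (K x : ℝ) : ℝ := K / 2 - (max (K - x) 0) ^ 2 / (2 * K)

theorem pq_nonneg {K x : ℝ} (hK : 0 < K) (hx : 0 ≤ x) : 0 ≤ pq K x := by
  unfold pq
  have h1 : 0 ≤ max (K - x) 0 := le_max_right _ _
  have h2 : max (K - x) 0 ≤ K := max_le (by linarith) hK.le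
  have h3 : (max (K - x) 0) ^ 2 / (2 * K) ≤ K / 2 := by
    rw [div_le_iff₀ (by positivity)]
    nlinarith
  linarith

theorem pq_le {K x : ℝ} (hK : 0 < K) : pq K x ≤ x := by
  unfold pq
  rcases le_total x K with h | h
  · rw [max_eq_left (by linarith)]
    have h3 : K / 2 - x ≤ (K - x) ^ 2 / (2 * K) := by
      rw [le_div_iff₀ (by positivity)]
      nlinarith [sq_nonneg x]
    linarith
  · rw [max_eq_right (by linarith)]
    simp
    linarith

theorem pq_step {K t a b : ℝ} (hK : 0 < K) (hab : a + b ≤ 2 * t) :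
    0 ≤ pq K t - (pq K a + pq K b) / 2 := by
  unfold pq
  set A := max (K - a) 0 with hA
  set B := max (K - b) 0 with hB
  set T := max (K - t) 0 with hT
  have hA0 : 0 ≤ A := le_max_right _ _
  have hB0 : 0 ≤ B := le_max_right _ _
  have hT0 : 0 ≤ T := le_max_right _ _
  have hA1 : K - a ≤ A := le_max_left _ _
  have hB1 : K - b ≤ B := le_max_left _ _
  have hT1 : T ≤ (A + B) / 2 := by
    apply max_le
    · linarith
    · linarith
  have h1 : T ^ 2 ≤ (A ^ 2 + B ^ 2) / 2 := by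
    have : T ^ 2 ≤ ((A + B) / 2) ^ 2 := pow_le_pow_left₀ hT0 hT1 2
    nlinarith [sq_nonneg (A - B)]
  have h2 : T ^ 2 / (2 * K) ≤ (A ^ 2 / (2 * K) + B ^ 2 / (2 * K)) / 2 := by
    have e : (A ^ 2 / (2 * K) + B ^ 2 / (2 * K)) / 2 = (A ^ 2 + B ^ 2) / 2 / (2 * K) := by ring
    rw [e]
    exact div_le_div_of_nonneg_right h1 (by positivity)
  linarith

theorem pq_decr {K t a b : ℝ} (hK : 0 < K) (ha : 0 ≤ a) (hb : 0 ≤ b) (hab : a + b ≤ 2 * t)
    (htK : 2 * t ≤ K) :
    (t - (a + b) / 2) / 2 + ((a - b) / 2) ^ 2 / (2 * K) ≤ pq K t - (pq K a + pq K b) / 2 := by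
  unfold pq
  have ht : 0 ≤ t := by linarith
  rw [max_eq_left (by linarith), max_eq_left (by linarith), max_eq_left (by linarith)]
  obtain ⟨s, hs⟩ : ∃ s, s = (a + b) / 2 := ⟨_, rfl⟩
  obtain ⟨d, hd⟩ : ∃ d, d = (a - b) / 2 := ⟨_, rfl⟩
  have ea : a = s + d := by rw [hs, hd]; ring
  have eb : b = s - d := by rw [hs, hd]; ring
  have hst : s ≤ t := by rw [hs]; linarith
  have hs0 : 0 ≤ s := by rw [hs]; linarith
  rw [← hs, ← hd, ea, eb]
  have e : K / 2 - (K - t) ^ 2 / (2 * K) - (K / 2 - (K - (s + d)) ^ 2 / (2 * K)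
      + (K / 2 - (K - (s - d)) ^ 2 / (2 * K))) / 2
      = (t - s) * (2 * K - t - s) / (2 * K) + d ^ 2 / (2 * K) := by
    field_simp
    ring
  rw [e]
  have h1 : (t - s) / 2 ≤ (t - s) * (2 * K - t - s) / (2 * K) := by
    rw [le_div_iff₀ (by positivity)]
    nlinarith
  linarith

/-- pointwise estimate -/
theorem pt_est' (t a b K M lam : ℝ) (ha : 0 ≤ a) (hb : 0 ≤ b) (hab : a + b ≤ 2 * t)
    (hK : 0 < K) (hM : 0 < M) (hlam : 0 < lam) :
    min 1 (M * (4 * t - a - 3 * b))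
      ≤ 2 * t / K + M * lam + M * (8 + 2 * K / lam) * (pq K t - (pq K a + pq K b) / 2) := by
  have hr0 := pq_step (K := K) hK hab
  obtain ⟨r, hr⟩ : ∃ r, r = pq K t - (pq K a + pq K b) / 2 := ⟨_, rfl⟩
  rw [← hr] at hr0 ⊢
  have ht : 0 ≤ t := by linarith
  have hcoef : 0 ≤ M * (8 + 2 * K / lam) * r := by positivity
  by_cases hKt : K < 2 * t
  · have h1 : 1 ≤ 2 * t / K := by
      rw [le_div_iff₀ hK]; linarith
    have h2 : 0 ≤ M * lam := by positivity
    exact le_trans (min_le_left _ _) (by linarith)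
  · push Not at hKt
    refine le_trans (min_le_right _ _) ?_
    have hd := pq_decr hK ha hb hab hKt
    rw [← hr] at hd
    obtain ⟨d, hdd⟩ : ∃ d, d = (a - b) / 2 := ⟨_, rfl⟩
    rw [← hdd] at hd
    have h1 : 0 ≤ d ^ 2 / (2 * K) := by positivity
    have h2 : 0 ≤ (t - (a + b) / 2) / 2 := by linarith
    have e1 : t - (a + b) / 2 ≤ 2 * r := by linarith
    have e2 : d ^ 2 ≤ 2 * K * r := by
      have : d ^ 2 / (2 * K) ≤ r := by linarith
      rw [div_le_iff₀ (by positivity)] at this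
      linarith
    have e3 : 2 * d ≤ lam + d ^ 2 / lam := by
      have h3 : 2 * d * lam ≤ lam ^ 2 + d ^ 2 := by nlinarith [sq_nonneg (lam - d)]
      have h4 : lam + d ^ 2 / lam = (lam ^ 2 + d ^ 2) / lam := by
        field_simp
      rw [h4, le_div_iff₀ hlam]
      exact h3
    have e4 : d ^ 2 / lam ≤ 2 * K / lam * r := by
      rw [div_mul_eq_mul_div]
      exact div_le_div_of_nonneg_right e2 hlam.le
    have e5 : 4 * t - a - 3 * b = 4 * (t - (a + b) / 2) + 2 * d := by rw [hdd]; ring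
    have e6 : 4 * t - a - 3 * b ≤ lam + (8 + 2 * K / lam) * r := by
      rw [e5]
      nlinarith
    have h0 : 0 ≤ 2 * t / K := by positivity
    nlinarith

theorem potential' (M θ : ℝ) (hM : 1 ≤ M) (hθ : 0 < θ) (hθ1 : θ ≤ 1) (C0 : ℕ)
    (hC0 : 132 * M ^ 2 / θ ^ 3 ≤ C0) (t : ℕ → ℕ → ℝ) (h00 : t 0 0 ≤ 1)
    (hnn : ∀ c ≤ C0, ∀ i < 2 ^ c, 0 ≤ t c i)
    (hsub : ∀ c < C0, ∀ i < 2 ^ c, t (c + 1) (2 * i) + t (c + 1) (2 * i + 1) ≤ 2 * t c i) :
    ∃ c < C0, ∑ i ∈ range (2 ^ c),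
        min 1 (M * (4 * t c i - t (c + 1) (2 * i) - 3 * t (c + 1) (2 * i + 1)))
          ≤ θ * 2 ^ c := by
  have hM0 : 0 < M := by linarith
  set K : ℝ := 6 / θ with hK
  set lam : ℝ := θ / (3 * M) with hlam
  have hK0 : 0 < K := by positivity
  have hlam0 : 0 < lam := by positivity
  set C1 : ℝ := M * (8 + 2 * K / lam) with hC1
  have hC10 : 0 < C1 := by positivity
  have hC1e : C1 = 8 * M + 36 * M ^ 2 / θ ^ 2 := by
    rw [hC1, hK, hlam]
    field_simp
    ring
  have hC1le : 3 * C1 / θ ≤ C0 := by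
    refine le_trans ?_ hC0
    rw [hC1e]
    have h1 : 8 * M ≤ 8 * M ^ 2 / θ ^ 2 := by
      rw [le_div_iff₀ (by positivity)]
      have : θ ^ 2 ≤ 1 := pow_le_one₀ hθ.le hθ1
      have h2 : M ≤ M ^ 2 := by nlinarith
      nlinarith
    have h2 : 3 * (8 * M + 36 * M ^ 2 / θ ^ 2) ≤ 132 * M ^ 2 / θ ^ 2 := by
      have : 132 * M ^ 2 / θ ^ 2 = 3 * (8 * M ^ 2 / θ ^ 2 + 36 * M ^ 2 / θ ^ 2) := by
        field_simp
        ring
      rw [this]
      linarith
    calc 3 * (8 * M + 36 * M ^ 2 / θ ^ 2) / θ ≤ 132 * M ^ 2 / θ ^ 2 / θ :=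
          div_le_div_of_nonneg_right h2 hθ.le
      _ = 132 * M ^ 2 / θ ^ 3 := by rw [div_div, ← pow_succ]
  have hC0pos : 0 < (C0 : ℝ) := lt_of_lt_of_le (by positivity) hC0
  have hC0pos' : 0 < C0 := by exact_mod_cast hC0pos
  -- the potential
  set Ph : ℕ → ℝ := fun c => (∑ i ∈ range (2 ^ c), pq K (t c i)) / 2 ^ c with hPh
  have hPh0 : Ph 0 ≤ 1 := by
    simp only [hPh]
    simp only [pow_zero, range_one, sum_singleton, div_one]
    exact (pq_le hK0).trans h00
  have hPhn : 0 ≤ Ph C0 := by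
    simp only [hPh]
    apply div_nonneg _ (by positivity)
    apply Finset.sum_nonneg
    intro i hi
    exact pq_nonneg hK0 (hnn C0 le_rfl i (Finset.mem_range.mp hi))
  -- a level with a small decrement
  have hex : ∃ c < C0, Ph c - Ph (c + 1) ≤ 1 / C0 := by
    by_contra hcon
    push Not at hcon
    have h1 : ∑ c ∈ range C0, (Ph c - Ph (c + 1)) = Ph 0 - Ph C0 :=
      Finset.sum_range_sub' Ph C0
    have h2 : ∑ c ∈ range C0, (1 / (C0 : ℝ)) < ∑ c ∈ range C0, (Ph c - Ph (c + 1)) := by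
      apply Finset.sum_lt_sum_of_nonempty
      · exact ⟨0, Finset.mem_range.mpr hC0pos'⟩
      · intro c hc
        exact hcon c (Finset.mem_range.mp hc)
    rw [h1, Finset.sum_const, Finset.card_range, nsmul_eq_mul, mul_one_div_cancel hC0pos.ne'] at h2
    linarith
  obtain ⟨c, hc, hdec⟩ := hex
  refine ⟨c, hc, ?_⟩
  -- average of t is at most 1
  have hsum : ∀ c' ≤ C0, ∑ i ∈ range (2 ^ c'), t c' i ≤ 2 ^ c' := by
    intro c'
    induction c' with
    | zero =>
      intro _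
      simpa using h00
    | succ c' ih =>
      intro hc'
      rw [pow_succ, mul_comm (2 ^ c') 2, sum_pairs]
      calc ∑ i ∈ range (2 ^ c'), (t (c' + 1) (2 * i) + t (c' + 1) (2 * i + 1))
          ≤ ∑ i ∈ range (2 ^ c'), 2 * t c' i := by
            apply Finset.sum_le_sum
            intro i hi
            exact hsub c' (by omega) i (Finset.mem_range.mp hi)
        _ = 2 * ∑ i ∈ range (2 ^ c'), t c' i := by rw [← Finset.mul_sum]
        _ ≤ 2 * 2 ^ c' := by
            have := ih (by omega)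
            linarith
        _ = 2 ^ (c' + 1) := by ring
  have hN : (0 : ℝ) < 2 ^ c := by positivity
  have hPhc1 : Ph (c + 1) * 2 ^ c = ∑ i ∈ range (2 ^ c),
      (pq K (t (c + 1) (2 * i)) + pq K (t (c + 1) (2 * i + 1))) / 2 := by
    simp only [hPh]
    rw [show (2 : ℕ) ^ (c + 1) = 2 * 2 ^ c by ring, sum_pairs]
    rw [← Finset.sum_div]
    rw [pow_succ]
    field_simp
  have hPhc : Ph c * 2 ^ c = ∑ i ∈ range (2 ^ c), pq K (t c i) := by
    simp only [hPh]
    field_simp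
  have hr : ∑ i ∈ range (2 ^ c), (pq K (t c i)
      - (pq K (t (c + 1) (2 * i)) + pq K (t (c + 1) (2 * i + 1))) / 2) ≤ 2 ^ c / C0 := by
    rw [Finset.sum_sub_distrib, ← hPhc, ← hPhc1, ← sub_mul]
    calc (Ph c - Ph (c + 1)) * 2 ^ c ≤ (1 / C0) * 2 ^ c :=
          mul_le_mul_of_nonneg_right hdec hN.le
      _ = 2 ^ c / C0 := by ring
  calc ∑ i ∈ range (2 ^ c),
        min 1 (M * (4 * t c i - t (c + 1) (2 * i) - 3 * t (c + 1) (2 * i + 1)))
      ≤ ∑ i ∈ range (2 ^ c), (2 * t c i / K + M * lam + C1 * (pq K (t c i)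
      - (pq K (t (c + 1) (2 * i)) + pq K (t (c + 1) (2 * i + 1))) / 2)) := by
        apply Finset.sum_le_sum
        intro i hi
        have hi' := Finset.mem_range.mp hi
        have p2 : 2 * i < 2 ^ (c + 1) := by rw [pow_succ]; omega
        have p3 : 2 * i + 1 < 2 ^ (c + 1) := by rw [pow_succ]; omega
        exact pt_est' (t c i) (t (c + 1) (2 * i)) (t (c + 1) (2 * i + 1)) K M lam
          (hnn (c + 1) (by omega) _ p2) (hnn (c + 1) (by omega) _ p3) (hsub c hc i hi')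
          hK0 hM0 hlam0
    _ = 2 * (∑ i ∈ range (2 ^ c), t c i) / K + 2 ^ c * (M * lam) + C1 * ∑ i ∈ range (2 ^ c),
        (pq K (t c i) - (pq K (t (c + 1) (2 * i)) + pq K (t (c + 1) (2 * i + 1))) / 2) := by
        rw [Finset.sum_add_distrib, Finset.sum_add_distrib, Finset.sum_const, Finset.card_range,
          ← Finset.sum_div, ← Finset.mul_sum, ← Finset.mul_sum, nsmul_eq_mul]
        push_cast
        ring
    _ ≤ 2 * 2 ^ c / K + 2 ^ c * (M * lam) + C1 * (2 ^ c / C0) := by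
        have h1 := hsum c hc.le
        have h2 : 2 * (∑ i ∈ range (2 ^ c), t c i) / K ≤ 2 * 2 ^ c / K :=
          div_le_div_of_nonneg_right (by linarith) hK0.le
        have h3 := mul_le_mul_of_nonneg_left hr hC10.le
        linarith
    _ ≤ θ * 2 ^ c := by
        have h1 : 2 * (2 : ℝ) ^ c / K = θ / 3 * 2 ^ c := by
          rw [hK]; field_simp; ring
        have h2 : (2 : ℝ) ^ c * (M * lam) = θ / 3 * 2 ^ c := by
          rw [hlam]; field_simp
        have h3 : C1 * (2 ^ c / C0) ≤ θ / 3 * 2 ^ c := by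
          have h4 : C1 / C0 ≤ θ / 3 := by
            rw [div_le_iff₀ hC0pos]
            rw [div_le_iff₀ hθ] at hC1le
            linarith
          calc C1 * (2 ^ c / C0) = (C1 / C0) * 2 ^ c := by ring
            _ ≤ θ / 3 * 2 ^ c := mul_le_mul_of_nonneg_right h4 hN.le
        rw [h1, h2]
        linarith

end Pool.Agent.Y371.Bent
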