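import Mathlib
import Pool.Agent.Helper291.BentPolar
import Pool.Agent.Y371.Bent.Pot

/-! The polarization theorem with a polynomial dependence of the number of levels on the accuracy
(the proof follows `Pool.Agent.Helper291.Bent.polar`). -/

set_option autoImplicit false

namespace Pool.Agent.Y371.Bent

open Finset Pool.Agent.Helper291.Bent

/-- The polarization theorem with a polynomial dependence: at some level, almost all coefficients
are predictable. -/
theorem polar' (θ : ℝ) (hθ : 0 < θ) (hθ1 : θ ≤ 1) (n : ℕ) (hn : 7 * 10 ^ 15 / θ ^ 11 ≤ n)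
    (Ω : Type) [Fintype Ω] [Nonempty Ω] (Z : Ω → ℕ → ℤ)
    (hZ : ∀ w u, Z w u = 1 ∨ Z w u = -1) :
      ∃ l ≤ n, ∃ G : ℕ → ℕ → Ω → ℤ,
        (∀ u k w w', (∀ j < k, bf (Z w) l u j = bf (Z w') l u j) → G u k w = G u k w') ∧
        ∑ u ∈ range (2 ^ (n - l)), ∑ k ∈ range (2 ^ l),
          ((univ.filter (fun w => bf (Z w) l u k ≠ G u k w)).card : ℝ)
            ≤ θ * 2 ^ n * Fintype.card Ω := by
  classical
  set ε : ℝ := θ / 4 with hε
  have hε0 : 0 < ε := by positivity
  have hε2 : ε ≤ 1 / 2 := by rw [hε]; linarith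
  set B : ℝ := 10000 / ε ^ 4 with hB
  have hB0 : 0 < B := by positivity
  have hBe : B = 2560000 / θ ^ 4 := by
    rw [hB, hε]
    field_simp
    norm_num
  have hB1 : 1 ≤ B := by
    rw [hBe, le_div_iff₀ (by positivity)]
    have : θ ^ 4 ≤ 1 := pow_le_one₀ hθ.le hθ1
    linarith
  have hnB : 132 * B ^ 2 / (θ / 2) ^ 3 ≤ (n : ℝ) := by
    refine le_trans ?_ hn
    have e : 132 * B ^ 2 / (θ / 2) ^ 3 = (132 * 2560000 ^ 2 * 8) / θ ^ 11 := by
      rw [hBe]
      field_simp
      norm_num
    rw [e]
    apply div_le_div_of_nonneg_right _ (by positivity)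
    norm_num
  obtain ⟨C0, hC0n⟩ : ∃ C0 : ℕ, C0 = n := ⟨n, rfl⟩
  have hn : C0 ≤ n := hC0n.le
  have hC0 := potential' B (θ / 2) hB1 (by positivity) (by linarith) C0
    (by rw [hC0n]; exact hnB)
  have hΩ : (0 : ℝ) < Fintype.card Ω := by exact_mod_cast Fintype.card_pos
  -- normalised averages
  set t : ℕ → ℕ → ℝ := fun c i =>
    (∑ u ∈ range (2 ^ (n - c)), inc Z c u i) / (2 ^ (n - c) * Fintype.card Ω) with ht
  have htmul : ∀ c i, ∑ u ∈ range (2 ^ (n - c)), inc Z c u i
      = 2 ^ (n - c) * Fintype.card Ω * t c i := by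
    intro c i
    simp only [ht]
    field_simp
  have hpairs : ∀ c < n, ∀ f : ℕ → ℝ, ∑ u ∈ range (2 ^ (n - c)), f u
      = ∑ u ∈ range (2 ^ (n - (c + 1))), (f (2 * u) + f (2 * u + 1)) := by
    intro c hc f
    rw [← sum_pairs]
    congr 2
    rw [← pow_succ']
    congr 1
    omega
  have hpow : ∀ c < n, (2 : ℝ) ^ (n - c) = 2 * 2 ^ (n - (c + 1)) := by
    intro c hc
    rw [← pow_succ']
    congr 1
    omega
  have h00 : t 0 0 ≤ 1 := by
    simp only [ht]
    rw [div_le_one (by positivity)]
    calc ∑ u ∈ range (2 ^ (n - 0)), inc Z 0 u 0 ≤ ∑ u ∈ range (2 ^ (n - 0)), (Fintype.card Ω : ℝ) :=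
          Finset.sum_le_sum (fun u _ => inc_zero Z hZ u)
      _ = 2 ^ (n - 0) * Fintype.card Ω := by
          rw [Finset.sum_const, Finset.card_range, nsmul_eq_mul]
          push_cast
          ring
  have hnn : ∀ c ≤ C0, ∀ i < 2 ^ c, 0 ≤ t c i := by
    intro c _ i _
    simp only [ht]
    apply div_nonneg _ (by positivity)
    exact Finset.sum_nonneg (fun u _ => inc_nonneg Z c u i)
  have hsub : ∀ c < C0, ∀ i < 2 ^ c, t (c + 1) (2 * i) + t (c + 1) (2 * i + 1) ≤ 2 * t c i := by
    intro c hc i _
    have hcn : c < n := by omega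
    have h1 := htmul c i
    have h2 := htmul (c + 1) (2 * i)
    have h3 := htmul (c + 1) (2 * i + 1)
    have h4 : ∑ u ∈ range (2 ^ (n - (c + 1))), inc Z (c + 1) u (2 * i)
        + ∑ u ∈ range (2 ^ (n - (c + 1))), inc Z (c + 1) u (2 * i + 1)
        ≤ ∑ u ∈ range (2 ^ (n - c)), inc Z c u i := by
      rw [hpairs c hcn, ← Finset.sum_add_distrib]
      exact Finset.sum_le_sum (fun u _ => inc_sub Z c u i)
    rw [h1, h2, h3, hpow c hcn] at h4
    have h5 : (0 : ℝ) < 2 ^ (n - (c + 1)) * Fintype.card Ω := by positivity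
    nlinarith
  obtain ⟨c, hc, hcsum⟩ := hC0 t h00 hnn hsub
  have hcn : c < n := by omega
  refine ⟨c + 1, by omega, ?_⟩
  -- choose the guesses
  choose g0 g1 f0 f1 e0 e1 using fun (u : ℕ) (i : ℕ) => inc_local Z c u i ε hε0 hε2
  refine ⟨fun u k => if k % 2 = 0 then g0 u (k / 2) else g1 u (k / 2), ?_, ?_⟩
  · intro u k w w' h
    rcases Nat.even_or_odd' k with ⟨i, hi | hi⟩
    · have : k % 2 = 0 := by omega
      simp only [this, if_true]
      rw [show k / 2 = i by omega]
      apply f0 u i w w'
      rw [pst_eq_iff]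
      intro j hj
      exact h j (by omega)
    · have : ¬ k % 2 = 0 := by omega
      simp only [this, if_false]
      rw [show k / 2 = i by omega]
      apply f1 u i w w'
      rw [pst_eq_iff]
      intro j hj
      exact h j (by omega)
  · set R : ℕ := 2 ^ (n - (c + 1)) with hR
    have hRr : ((R : ℕ) : ℝ) = 2 ^ (n - (c + 1)) := by rw [hR]; push_cast; rfl
    set q : ℕ → ℕ → ℝ := fun u i => 2 * inc Z c (2 * u) i + 2 * inc Z c (2 * u + 1) i
      - inc Z (c + 1) u (2 * i) - 3 * inc Z (c + 1) u (2 * i + 1) with hq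
    have hqsum : ∀ i, ∑ u ∈ range R, q u i = R * Fintype.card Ω *
        (4 * t c i - t (c + 1) (2 * i) - 3 * t (c + 1) (2 * i + 1)) := by
      intro i
      have h1 := htmul c i
      have h2 := htmul (c + 1) (2 * i)
      have h3 := htmul (c + 1) (2 * i + 1)
      rw [hpairs c hcn, hpow c hcn] at h1
      rw [Finset.sum_add_distrib] at h1
      simp only [hq]
      rw [Finset.sum_sub_distrib, Finset.sum_sub_distrib, Finset.sum_add_distrib,
        ← Finset.mul_sum, ← Finset.mul_sum, ← Finset.mul_sum, h2, h3, hRr]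
      linear_combination 2 * h1
    -- bound of the errors of a pair
    have herr : ∀ i, ∑ u ∈ range R,
        (((univ.filter (fun w => bf (Z w) (c + 1) u (2 * i) ≠ g0 u i w)).card : ℝ)
          + ((univ.filter (fun w => bf (Z w) (c + 1) u (2 * i + 1) ≠ g1 u i w)).card : ℝ))
        ≤ 2 * (R * Fintype.card Ω) * (2 * ε + min 1 (B * (4 * t c i - t (c + 1) (2 * i)
          - 3 * t (c + 1) (2 * i + 1)))) := by
      intro i
      have hcard : ∀ s : Finset Ω, ((s.card : ℕ) : ℝ) ≤ Fintype.card Ω := by
        intro s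
        exact_mod_cast Finset.card_le_univ s
      rcases le_total (B * (4 * t c i - t (c + 1) (2 * i) - 3 * t (c + 1) (2 * i + 1))) 1 with h | h
      · rw [min_eq_right h]
        calc ∑ u ∈ range R,
        (((univ.filter (fun w => bf (Z w) (c + 1) u (2 * i) ≠ g0 u i w)).card : ℝ)
          + ((univ.filter (fun w => bf (Z w) (c + 1) u (2 * i + 1) ≠ g1 u i w)).card : ℝ))
            ≤ ∑ u ∈ range R, (2 * (2 * ε * Fintype.card Ω + B * q u i)) := by
              apply Finset.sum_le_sum
              intro u _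
              have a0 := e0 u i
              have a1 := e1 u i
              simp only [hq]
              linarith
          _ = 2 * (R * (2 * ε * Fintype.card Ω) + B * ∑ u ∈ range R, q u i) := by
              rw [← Finset.mul_sum, Finset.sum_add_distrib, Finset.sum_const, Finset.card_range,
                nsmul_eq_mul, ← Finset.mul_sum]
          _ ≤ _ := by
              rw [hqsum i]
              apply le_of_eq
              ring
      · rw [min_eq_left h]
        calc ∑ u ∈ range R,
        (((univ.filter (fun w => bf (Z w) (c + 1) u (2 * i) ≠ g0 u i w)).card : ℝ)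
          + ((univ.filter (fun w => bf (Z w) (c + 1) u (2 * i + 1) ≠ g1 u i w)).card : ℝ))
            ≤ ∑ u ∈ range R, (2 * (Fintype.card Ω : ℝ)) := by
              apply Finset.sum_le_sum
              intro u _
              have a0 := hcard (univ.filter (fun w => bf (Z w) (c + 1) u (2 * i) ≠ g0 u i w))
              have a1 := hcard (univ.filter (fun w => bf (Z w) (c + 1) u (2 * i + 1) ≠ g1 u i w))
              linarith
          _ = 2 * (R * Fintype.card Ω) := by
              rw [Finset.sum_const, Finset.card_range, nsmul_eq_mul]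
              ring
          _ ≤ _ := by
              have : (0 : ℝ) ≤ 2 * (R * Fintype.card Ω) := by positivity
              nlinarith
    rw [Finset.sum_comm]
    rw [show (2 : ℕ) ^ (c + 1) = 2 * 2 ^ c by ring, sum_pairs]
    calc ∑ i ∈ range (2 ^ c), (∑ u ∈ range R, ((univ.filter (fun w =>
          bf (Z w) (c + 1) u (2 * i) ≠ (if (2 * i) % 2 = 0 then g0 u ((2 * i) / 2)
            else g1 u ((2 * i) / 2)) w)).card : ℝ)
          + ∑ u ∈ range R, ((univ.filter (fun w =>
          bf (Z w) (c + 1) u (2 * i + 1) ≠ (if (2 * i + 1) % 2 = 0 then g0 u ((2 * i + 1) / 2)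
            else g1 u ((2 * i + 1) / 2)) w)).card : ℝ))
        = ∑ i ∈ range (2 ^ c), ∑ u ∈ range R,
        (((univ.filter (fun w => bf (Z w) (c + 1) u (2 * i) ≠ g0 u i w)).card : ℝ)
          + ((univ.filter (fun w => bf (Z w) (c + 1) u (2 * i + 1) ≠ g1 u i w)).card : ℝ)) := by
          apply Finset.sum_congr rfl
          intro i _
          rw [← Finset.sum_add_distrib]
          apply Finset.sum_congr rfl
          intro u _
          have b1 : (2 * i) % 2 = 0 := by omega
          have b2 : (2 * i) / 2 = i := by omega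
          have b3 : ¬ (2 * i + 1) % 2 = 0 := by omega
          have b4 : (2 * i + 1) / 2 = i := by omega
          simp only [b1, b2, b3, b4, if_true, if_false]
      _ ≤ ∑ i ∈ range (2 ^ c), 2 * (R * Fintype.card Ω) * (2 * ε + min 1 (B * (4 * t c i
          - t (c + 1) (2 * i) - 3 * t (c + 1) (2 * i + 1)))) :=
          Finset.sum_le_sum (fun i _ => herr i)
      _ = 2 * (R * Fintype.card Ω) * (2 ^ c * (2 * ε) + ∑ i ∈ range (2 ^ c),
          min 1 (B * (4 * t c i - t (c + 1) (2 * i) - 3 * t (c + 1) (2 * i + 1)))) := by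
          rw [← Finset.mul_sum, Finset.sum_add_distrib, Finset.sum_const, Finset.card_range,
            nsmul_eq_mul]
          push_cast
          ring
      _ ≤ 2 * (R * Fintype.card Ω) * (2 ^ c * (2 * ε) + θ / 2 * 2 ^ c) := by
          apply mul_le_mul_of_nonneg_left _ (by positivity)
          linarith
      _ = θ * 2 ^ n * Fintype.card Ω := by
          rw [hRr, hε]
          have h1 : (2 : ℝ) ^ n = 2 ^ (n - (c + 1)) * 2 ^ c * 2 := by
            rw [mul_assoc, ← pow_succ, ← pow_add]
            congr 1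
            omega
          rw [h1]
          ring


end Pool.Agent.Y371.Bent
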