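import Mathlib
import Pool.Agent.Helper291.BentMain
import Pool.Agent.Y371.Bent.Polar

/-! The size of a family of sign sequences with two-valued Walsh transforms. -/

set_option autoImplicit false

namespace Pool.Agent.Y371.Bent

open Finset Pool.Agent.Helper291.Bent

theorem family_bound (θ : ℝ) (hθ : 0 < θ) (hθ1 : θ ≤ 1) (n : ℕ) (hn : 7 * 10 ^ 15 / θ ^ 11 ≤ n)
    (Ω : Type) [Fintype Ω] [Nonempty Ω] (Z : Ω → ℕ → ℤ) (q : ℤ) (hq : q ≠ 0)
    (hZ : ∀ w u, Z w u = 1 ∨ Z w u = -1)
    (hZq : ∀ w, ∀ k < 2 ^ n, bf (Z w) n 0 k = q ∨ bf (Z w) n 0 k = -q)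
    (hinj : ∀ w w', (∀ v < 2 ^ n, Z w v = Z w' v) → w = w') :
    Real.log (Fintype.card Ω) ≤ Real.log 2 + 2 ^ n * (2 * θ + 2 * θ * Real.log (1 / θ)) := by
  classical
  obtain ⟨l, hl, G, hG, herr⟩ := polar' θ hθ hθ1 n hn Ω Z hZ
  have hΩ : (0 : ℝ) < Fintype.card Ω := by exact_mod_cast Fintype.card_pos
  set R : ℕ := 2 ^ (n - l) with hR
  set U : Finset (ℕ × ℕ) := (range R) ×ˢ (range (2 ^ l)) with hU
  have hUcard : U.card = 2 ^ n := by
    rw [hU, Finset.card_product, Finset.card_range, Finset.card_range, hR, ← pow_add]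
    congr 1
    omega
  set e : Ω → ℕ := fun w => (pat Z l R G w).card with he
  set N : ℝ := 2 ^ n with hN
  have hNpos : 0 < N := by positivity
  have hesum : ∑ w, (e w : ℝ) ≤ θ * N * Fintype.card Ω := by
    have h1 : ∑ w, (e w : ℝ) = ∑ u ∈ range R, ∑ k ∈ range (2 ^ l),
          ((univ.filter (fun w => bf (Z w) l u k ≠ G u k w)).card : ℝ) := by
      simp only [he, pat]
      have h2 : ∀ w : Ω, ((((range R) ×ˢ (range (2 ^ l))).filter
          (fun p => bf (Z w) l p.1 p.2 ≠ G p.1 p.2 w)).card : ℝ)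
          = ∑ u ∈ range R, ∑ k ∈ range (2 ^ l), (if bf (Z w) l u k ≠ G u k w then (1 : ℝ) else 0) := by
        intro w
        rw [Finset.card_filter]
        push_cast
        rw [Finset.sum_product]
      rw [Finset.sum_congr rfl (fun w _ => h2 w)]
      rw [Finset.sum_comm]
      apply Finset.sum_congr rfl
      intro u _
      rw [Finset.sum_comm]
      apply Finset.sum_congr rfl
      intro k _
      rw [Finset.card_filter]
      push_cast
      rfl
    rw [h1]
    exact herr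
  -- Markov
  set κ : ℝ := 2 * θ * N with hκ
  have hκ0 : 0 < κ := by positivity
  set bad : Finset Ω := univ.filter (fun w => κ < e w) with hbad
  set good : Finset Ω := univ.filter (fun w => ¬ κ < e w) with hgood
  have hsplit : (bad.card : ℝ) + good.card = Fintype.card Ω := by
    have := Finset.card_filter_add_card_filter_not (s := (univ : Finset Ω)) (fun w => κ < e w)
    rw [← hbad, ← hgood, Finset.card_univ] at this
    exact_mod_cast this
  have hmarkov : (bad.card : ℝ) ≤ Fintype.card Ω / 2 := by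
    have h1 : κ * bad.card ≤ ∑ w, (e w : ℝ) := by
      calc κ * bad.card = ∑ w ∈ bad, κ := by
            rw [Finset.sum_const, nsmul_eq_mul]; ring
        _ ≤ ∑ w ∈ bad, (e w : ℝ) := by
            apply Finset.sum_le_sum
            intro w hw
            rw [hbad, Finset.mem_filter] at hw
            exact hw.2.le
        _ ≤ ∑ w, (e w : ℝ) := by
            apply Finset.sum_le_sum_of_subset_of_nonneg (Finset.subset_univ _)
            intro w _ _
            positivity
    have h2 : κ * bad.card ≤ κ * (Fintype.card Ω / 2) := by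
      calc κ * bad.card ≤ _ := h1
        _ ≤ _ := hesum
        _ = _ := by rw [hκ]; ring
    exact le_of_mul_le_mul_left h2 hκ0
  have hgoodge : (Fintype.card Ω : ℝ) / 2 ≤ good.card := by linarith
  -- weighted count
  have hweight : ∑ w : Ω, θ ^ (e w) ≤ (2 * θ + 1) ^ (2 ^ n) := by
    have h1 : ∑ w : Ω, θ ^ (e w)
        = ∑ P ∈ U.powerset, ∑ w ∈ univ.filter (fun w => pat Z l R G w = P), θ ^ (e w) := by
      rw [Finset.sum_fiberwise_of_maps_to]
      intro w _
      rw [Finset.mem_powerset]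
      exact Finset.filter_subset _ _
    rw [h1]
    calc ∑ P ∈ U.powerset, ∑ w ∈ univ.filter (fun w => pat Z l R G w = P), θ ^ (e w)
        ≤ ∑ P ∈ U.powerset, (2 * θ) ^ P.card * 1 ^ (U.card - P.card) := by
          apply Finset.sum_le_sum
          intro P hP
          rw [Finset.mem_powerset] at hP
          have h2 := pat_count Z n l hl q hq hZq hinj G hG P hP
          have h3 : ∑ w ∈ univ.filter (fun w => pat Z l R G w = P), θ ^ (e w)
              = ((univ.filter (fun w => pat Z l R G w = P)).card : ℝ) * θ ^ P.card := by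
            rw [← nsmul_eq_mul, ← Finset.sum_const]
            apply Finset.sum_congr rfl
            intro w hw
            rw [Finset.mem_filter] at hw
            simp only [he]
            rw [hw.2]
          rw [h3, one_pow, mul_one]
          have h4 : ((univ.filter (fun w => pat Z l R G w = P)).card : ℝ) ≤ 2 ^ P.card := by
            exact_mod_cast h2
          calc ((univ.filter (fun w => pat Z l R G w = P)).card : ℝ) * θ ^ P.card
              ≤ 2 ^ P.card * θ ^ P.card :=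
                mul_le_mul_of_nonneg_right h4 (by positivity)
            _ = (2 * θ) ^ P.card := by
                rw [← mul_pow]
      _ = (2 * θ + 1) ^ U.card := Finset.sum_pow_mul_eq_add_pow _ _ _
      _ = (2 * θ + 1) ^ (2 ^ n) := by
          rw [hUcard]
  have hLpos : 0 ≤ Real.log (1 / θ) := by
    apply Real.log_nonneg
    rw [le_div_iff₀ hθ]
    linarith
  have hpw : ∀ j : ℕ, θ ^ j = Real.exp (-(j * Real.log (1 / θ))) := by
    intro j
    rw [one_div, Real.log_inv, mul_neg, neg_neg, mul_comm, Real.exp_mul, Real.exp_log hθ,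
      Real.rpow_natCast]
  have hlow : (good.card : ℝ) * Real.exp (-(κ * Real.log (1 / θ))) ≤ ∑ w : Ω, θ ^ (e w) := by
    calc (good.card : ℝ) * Real.exp (-(κ * Real.log (1 / θ)))
        = ∑ w ∈ good, Real.exp (-(κ * Real.log (1 / θ))) := by
          rw [Finset.sum_const, nsmul_eq_mul]
      _ ≤ ∑ w ∈ good, θ ^ (e w) := by
          apply Finset.sum_le_sum
          intro w hw
          rw [hgood, Finset.mem_filter] at hw
          rw [hpw, Real.exp_le_exp]
          have h1 : (e w : ℝ) ≤ κ := not_lt.mp hw.2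
          have := mul_le_mul_of_nonneg_right h1 hLpos
          linarith
      _ ≤ ∑ w : Ω, θ ^ (e w) := by
          apply Finset.sum_le_sum_of_subset_of_nonneg (Finset.subset_univ _)
          intro w _ _
          positivity
  have hup : (2 * θ + 1) ^ (2 ^ n) ≤ Real.exp (2 * θ * N) := by
    have h1 : 2 * θ + 1 ≤ Real.exp (2 * θ) := Real.add_one_le_exp _
    calc (2 * θ + 1) ^ (2 ^ n) ≤ (Real.exp (2 * θ)) ^ (2 ^ n) :=
          pow_le_pow_left₀ (by positivity) h1 _
      _ = Real.exp (2 * θ * N) := by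
          rw [← Real.exp_nat_mul]
          congr 1
          push_cast
          ring
  have hfin : (Fintype.card Ω : ℝ) ≤ 2 * Real.exp (2 * θ * N + κ * Real.log (1 / θ)) := by
    have h1 : (good.card : ℝ) * Real.exp (-(κ * Real.log (1 / θ))) ≤ Real.exp (2 * θ * N) :=
      hlow.trans (hweight.trans hup)
    have h2 : (good.card : ℝ) ≤ Real.exp (2 * θ * N + κ * Real.log (1 / θ)) := by
      rw [Real.exp_neg, ← div_eq_mul_inv, div_le_iff₀ (Real.exp_pos _)] at h1
      rw [Real.exp_add]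
      exact h1
    linarith
  have h3 := Real.log_le_log hΩ hfin
  rw [Real.log_mul (by norm_num) (Real.exp_pos _).ne', Real.log_exp] at h3
  refine h3.trans (le_of_eq ?_)
  rw [hκ]
  ring

/-- final form: `log |Ω| ≤ 510 · 2^n / n^(1/12)` -/
theorem family_rate (n : ℕ) (hn1 : 1 ≤ n)
    (Ω : Type) [Fintype Ω] [Nonempty Ω] (Z : Ω → ℕ → ℤ) (q : ℤ) (hq : q ≠ 0)
    (hZ : ∀ w u, Z w u = 1 ∨ Z w u = -1)
    (hZq : ∀ w, ∀ k < 2 ^ n, bf (Z w) n 0 k = q ∨ bf (Z w) n 0 k = -q)
    (hinj : ∀ w w', (∀ v < 2 ^ n, Z w v = Z w' v) → w = w') (htriv : Fintype.card Ω ≤ 2 ^ 2 ^ n) :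
    Real.log (Fintype.card Ω) ≤ 700 * (2 ^ n / (n : ℝ) ^ ((1 : ℝ) / 12)) := by
  have hnr : (1 : ℝ) ≤ n := by exact_mod_cast hn1
  have hn0 : (0 : ℝ) < n := by linarith
  have hlog2 : Real.log 2 < 0.6931471808 := Real.log_two_lt_d9
  have hlog2' : 0 < Real.log 2 := Real.log_pos (by norm_num)
  have hnp : 0 < (n : ℝ) ^ ((1 : ℝ) / 12) := Real.rpow_pos_of_pos hn0 _
  have hΩ : (0 : ℝ) < Fintype.card Ω := by exact_mod_cast Fintype.card_pos
  set A : ℝ := 7 * 10 ^ 15 with hA
  have hA0 : 0 < A := by positivity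
  have hA12 : A ^ ((1 : ℝ) / 12) ≤ 21 := by
    have h1 : A ≤ 21 ^ (12 : ℕ) := by rw [hA]; norm_num
    calc A ^ ((1 : ℝ) / 12) ≤ ((21 : ℝ) ^ (12 : ℕ)) ^ ((1 : ℝ) / 12) :=
          Real.rpow_le_rpow hA0.le h1 (by norm_num)
      _ = 21 := by
          rw [← Real.rpow_natCast, ← Real.rpow_mul (by norm_num)]
          norm_num
  rcases lt_or_ge (n : ℝ) A with h | h
  · -- trivial bound
    have h1 : Real.log (Fintype.card Ω) ≤ 2 ^ n * Real.log 2 := by
      have h2 : (Fintype.card Ω : ℝ) ≤ 2 ^ 2 ^ n := by exact_mod_cast htriv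
      have h3 := Real.log_le_log hΩ h2
      rw [Real.log_pow] at h3
      push_cast at h3
      exact h3
    refine h1.trans ?_
    have h4 : (n : ℝ) ^ ((1 : ℝ) / 12) ≤ 21 :=
      (Real.rpow_le_rpow hn0.le h.le (by norm_num)).trans hA12
    have h5 : (2 : ℝ) ^ n * Real.log 2 ≤ 2 ^ n * 1 :=
      mul_le_mul_of_nonneg_left (by linarith) (by positivity)
    have h6 : (2 : ℝ) ^ n / 21 ≤ 2 ^ n / (n : ℝ) ^ ((1 : ℝ) / 12) :=
      div_le_div_of_nonneg_left (by positivity) hnp h4
    have h7 : (0 : ℝ) < 2 ^ n := by positivity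
    linarith
  · obtain ⟨θ, hθ⟩ : ∃ θ : ℝ, θ = (A / n) ^ ((1 : ℝ) / 11) := ⟨_, rfl⟩
    have hAn : 0 < A / n := by positivity
    have hAn1 : A / n ≤ 1 := by rw [div_le_one hn0]; exact h
    have hθ0 : 0 < θ := by rw [hθ]; exact Real.rpow_pos_of_pos hAn _
    have hθ1 : θ ≤ 1 := by
      rw [hθ]
      exact Real.rpow_le_one hAn.le hAn1 (by norm_num)
    have hθ11 : θ ^ 11 = A / n := by
      rw [hθ, ← Real.rpow_natCast, ← Real.rpow_mul hAn.le]
      norm_num
    have hnle : 7 * 10 ^ 15 / θ ^ 11 ≤ (n : ℝ) := by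
      rw [hθ11, ← hA, div_div_eq_mul_div, mul_div_assoc, mul_comm, div_mul_cancel₀]
      exact hA0.ne'
    have hb := family_bound θ hθ0 hθ1 n hnle Ω Z q hq hZ hZq hinj
    -- `1 + log (1/θ) ≤ 12 θ^(-1/12)`
    have hx : 1 + Real.log (1 / θ) ≤ 12 * (1 / θ) ^ ((1 : ℝ) / 12) := by
      have h1 : 0 < (1 / θ) ^ ((1 : ℝ) / 12) := Real.rpow_pos_of_pos (by positivity) _
      have h2 := Real.log_le_sub_one_of_pos h1
      rw [Real.log_rpow (by positivity)] at h2
      linarith
    have hxx : θ * (1 + Real.log (1 / θ)) ≤ 12 * (A / n) ^ ((1 : ℝ) / 12) := by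
      have h1 : θ * (1 / θ) ^ ((1 : ℝ) / 12) = (A / n) ^ ((1 : ℝ) / 12) := by
        have e1 : (1 / θ) ^ ((1 : ℝ) / 12) = θ ^ (-((1 : ℝ) / 12)) := by
          rw [one_div, Real.inv_rpow hθ0.le, Real.rpow_neg hθ0.le]
        rw [e1]
        nth_rewrite 1 [← Real.rpow_one θ]
        rw [← Real.rpow_add hθ0, hθ, ← Real.rpow_mul hAn.le]
        congr 1
        norm_num
      calc θ * (1 + Real.log (1 / θ)) ≤ θ * (12 * (1 / θ) ^ ((1 : ℝ) / 12)) :=
            mul_le_mul_of_nonneg_left hx hθ0.le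
        _ = 12 * (θ * (1 / θ) ^ ((1 : ℝ) / 12)) := by ring
        _ = _ := by rw [h1]
    have hy : (A / n) ^ ((1 : ℝ) / 12) ≤ 21 / (n : ℝ) ^ ((1 : ℝ) / 12) := by
      rw [Real.div_rpow hA0.le hn0.le]
      exact div_le_div_of_nonneg_right hA12 hnp.le
    have h2n : (1 : ℝ) ≤ 2 ^ n / (n : ℝ) ^ ((1 : ℝ) / 12) := by
      rw [le_div_iff₀ hnp, one_mul]
      have h1 : (n : ℝ) ^ ((1 : ℝ) / 12) ≤ (n : ℝ) ^ (1 : ℝ) :=
        Real.rpow_le_rpow_of_exponent_le hnr (by norm_num)
      rw [Real.rpow_one] at h1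
      refine h1.trans ?_
      exact_mod_cast (Nat.lt_two_pow_self (n := n)).le
    have h2p : (0 : ℝ) < 2 ^ n := by positivity
    calc Real.log (Fintype.card Ω) ≤ _ := hb
      _ = Real.log 2 + 2 * 2 ^ n * (θ * (1 + Real.log (1 / θ))) := by ring
      _ ≤ 1 * (2 ^ n / (n : ℝ) ^ ((1 : ℝ) / 12))
          + 2 * 2 ^ n * (12 * (21 / (n : ℝ) ^ ((1 : ℝ) / 12))) := by
          apply add_le_add
          · linarith
          · apply mul_le_mul_of_nonneg_left _ (by positivity)
            linarith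
      _ = 505 * (2 ^ n / (n : ℝ) ^ ((1 : ℝ) / 12)) := by ring
      _ ≤ _ := by linarith

end Pool.Agent.Y371.Bent
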