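import Mathlib
import Pool.Agent.Y371.Bent.Fam

/-! The number of bent functions and of sums of bent functions. -/

set_option autoImplicit false

namespace Pool.Agent.Y371.Bent

open Finset Pool.Agent.Helper291.Bent Filter

/-- bound for the number of bent functions in `2 m` variables -/
theorem bent_log (m : ℕ) (hm : 1 ≤ m) :
    Real.log (Nat.card {g : (Fin (2 * m) → ZMod 2) → ZMod 2 // IsBent m g})
      ≤ 700 * (2 ^ (2 * m) / ((2 * m : ℕ) : ℝ) ^ ((1 : ℝ) / 12)) := by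
  classical
  set Ω := {g : (Fin (2 * m) → ZMod 2) → ZMod 2 // IsBent m g} with hΩ
  have : Fintype Ω := Fintype.ofFinite Ω
  rw [Nat.card_eq_fintype_card]
  by_cases hne : Nonempty Ω
  · apply family_rate (2 * m) (by omega) Ω (fun g => sgn (2 * m) g.1) (2 ^ m) (by positivity)
    · intro w u
      unfold sgn
      exact neg_one_pow_eq_or ℤ _
    · intro w k _
      obtain ⟨a, ha⟩ := J7.bf_walsh (2 * m) w.1 k
      have h1 := w.2 a
      rw [← ha] at h1
      have h2 : (bf (sgn (2 * m) w.1) (2 * m) 0 k) ^ 2 = ((2 : ℤ) ^ m) ^ 2 := by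
        rw [h1, ← pow_mul, mul_comm m 2]
      exact sq_eq_sq_iff_eq_or_eq_neg.mp h2
    · intro w w' h
      exact Subtype.ext (J7.sgn_inj (2 * m) w.1 w'.1 h)
    · calc Fintype.card Ω ≤ Fintype.card ((Fin (2 * m) → ZMod 2) → ZMod 2) :=
            Fintype.card_subtype_le _
        _ = 2 ^ 2 ^ (2 * m) := by
            rw [Fintype.card_fun, Fintype.card_fun, ZMod.card, Fintype.card_fin]
  · rw [not_nonempty_iff] at hne
    rw [Fintype.card_eq_zero]
    simp only [Nat.cast_zero, Real.log_zero]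
    positivity

/-- `|W_f(a)| = 2^(n/2)` for all `a` -/
def bentSet (n : ℕ) : Set ((Fin n → ZMod 2) → ZMod 2) :=
  {f | ∀ a : Fin n → ZMod 2,
    |∑ x : Fin n → ZMod 2, (-1 : ℤ) ^ ((f x + ∑ i, a i * x i).val)| = 2 ^ (n / 2)}

theorem bentSet_card (m : ℕ) : (bentSet (2 * m)).ncard =
    Nat.card {g : (Fin (2 * m) → ZMod 2) → ZMod 2 // IsBent m g} := by
  rw [← Nat.card_coe_set_eq]
  have h : bentSet (2 * m) = {g | IsBent m g} := by
    ext g
    unfold bentSet IsBent
    simp only [Set.mem_ofPred_eq]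
    apply forall_congr'
    intro a
    rw [show 2 * m / 2 = m by omega]
    constructor
    · intro h
      rw [← sq_abs, h, ← pow_mul, mul_comm m 2]
    · intro h
      have h1 : (|∑ x : Fin (2 * m) → ZMod 2, (-1 : ℤ) ^ ((g x + ∑ i, a i * x i).val)|) ^ 2
          = ((2 : ℤ) ^ m) ^ 2 := by
        rw [sq_abs, h, ← pow_mul, mul_comm m 2]
      exact (pow_left_inj₀ (abs_nonneg _) (by positivity) (by norm_num)).mp h1
  rw [h]
  rfl

theorem bentSet_log {n : ℕ} (hn : 1 ≤ n) (he : Even n) :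
    Real.log ((bentSet n).ncard) ≤ 700 * (2 ^ n / (n : ℝ) ^ ((1 : ℝ) / 12)) := by
  obtain ⟨m, hm⟩ := he
  obtain rfl : n = 2 * m := by omega
  rw [bentSet_card]
  exact bent_log m (by omega)

theorem bentSet_logb {n : ℕ} (hn : 1 ≤ n) (he : Even n) :
    Real.logb 2 ((bentSet n).ncard) ≤ 1015 * (2 ^ n / (n : ℝ) ^ ((1 : ℝ) / 12)) := by
  have h := bentSet_log hn he
  have hnr : (1 : ℝ) ≤ n := by exact_mod_cast hn
  have h0 : 0 ≤ (2 : ℝ) ^ n / (n : ℝ) ^ ((1 : ℝ) / 12) := by positivity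
  have hl : 0.6931471803 < Real.log 2 := Real.log_two_gt_d9
  rw [Real.logb, div_le_iff₀ (by linarith)]
  nlinarith

/-- the rate tends to zero -/
theorem rate_tendsto : Tendsto (fun n : ℕ => 1 / (n : ℝ) ^ ((1 : ℝ) / 12)) atTop (nhds 0) := by
  have h1 : Tendsto (fun n : ℕ => (n : ℝ) ^ ((1 : ℝ) / 12)) atTop atTop :=
    (tendsto_rpow_atTop (by norm_num)).comp tendsto_natCast_atTop_atTop
  have h2 := h1.inv_tendsto_atTop
  refine h2.congr (fun n => ?_)
  simp only [Pi.inv_apply, one_div]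

theorem bent_tendsto :
    Tendsto (fun m : ℕ => Real.logb 2 ((bentSet (2 * m)).ncard) / 2 ^ (2 * m)) atTop (nhds 0) := by
  have h2 : Tendsto (fun m : ℕ => 1015 * (1 / ((2 * m : ℕ) : ℝ) ^ ((1 : ℝ) / 12))) atTop (nhds 0) := by
    have h3 : Tendsto (fun m : ℕ => 2 * m) atTop atTop :=
      tendsto_atTop_mono (f := fun m : ℕ => m) (fun m => by omega) tendsto_id
    have h4 := (rate_tendsto.comp h3).const_mul 1015
    simpa using h4
  refine squeeze_zero' (Eventually.of_forall ?_) ?_ h2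
  · intro m
    apply div_nonneg _ (by positivity)
    unfold Real.logb
    exact div_nonneg (Real.log_natCast_nonneg _) (Real.log_nonneg (by norm_num))
  · filter_upwards [eventually_ge_atTop 1] with m hm
    rw [div_le_iff₀ (by positivity)]
    refine (bentSet_logb (n := 2 * m) (by omega) ⟨m, by ring⟩).trans (le_of_eq ?_)
    ring

/-- sums of `k` bent functions -/
def bentSums (k n : ℕ) : Set ((Fin n → ZMod 2) → ZMod 2) :=
  {ψ | ∃ f : Fin k → ((Fin n → ZMod 2) → ZMod 2), (∀ j, f j ∈ bentSet n) ∧ ψ = ∑ j, f j}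

theorem bentSums_card (k n : ℕ) : (bentSums k n).ncard ≤ (bentSet n).ncard ^ k := by
  classical
  have h1 : bentSums k n = (fun f : Fin k → ((Fin n → ZMod 2) → ZMod 2) => ∑ j, f j) ''
      (Set.univ.pi (fun _ : Fin k => bentSet n)) := by
    ext ψ
    unfold bentSums
    simp only [Set.mem_ofPred_eq, Set.mem_image, Set.mem_pi, Set.mem_univ, forall_true_left]
    constructor
    · rintro ⟨f, hf, e⟩
      exact ⟨f, hf, e.symm⟩
    · rintro ⟨f, hf, e⟩
      exact ⟨f, hf, e.symm⟩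
  rw [h1]
  refine (Set.ncard_image_le (Set.toFinite _)).trans ?_
  have h2 : (Set.univ.pi (fun _ : Fin k => bentSet n)) =
      ((Fintype.piFinset (fun _ : Fin k => (Set.toFinite (bentSet n)).toFinset) :
        Finset (Fin k → ((Fin n → ZMod 2) → ZMod 2))) : Set _) := by
    ext f
    simp
  rw [h2, Set.ncard_coe_finset, Fintype.card_piFinset]
  simp [Set.ncard_eq_toFinset_card _ (Set.toFinite (bentSet n))]

theorem bentSums_le {k n : ℕ} (hn : 1 ≤ n) (he : Even n) :
    ((bentSums k n).ncard : ℝ) ≤ 2 ^ ((k : ℝ) * (1015 * (2 ^ n / (n : ℝ) ^ ((1 : ℝ) / 12)))) := by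
  have h1 : ((bentSums k n).ncard : ℝ) ≤ ((bentSet n).ncard : ℝ) ^ k := by
    exact_mod_cast bentSums_card k n
  have h2 : ((bentSet n).ncard : ℝ) ≤ 2 ^ (1015 * ((2 : ℝ) ^ n / (n : ℝ) ^ ((1 : ℝ) / 12))) := by
    rcases Nat.eq_zero_or_pos (bentSet n).ncard with h | h
    · rw [h, Nat.cast_zero]
      exact Real.rpow_nonneg (by norm_num) _
    · have hpos : (0 : ℝ) < ((bentSet n).ncard : ℝ) := by exact_mod_cast h
      rw [← Real.logb_le_iff_le_rpow (by norm_num) hpos]
      exact bentSet_logb hn he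
  refine h1.trans ?_
  rw [mul_comm, Real.rpow_mul (by norm_num), Real.rpow_natCast]
  exact pow_le_pow_left₀ (by positivity) h2 k

/-- the functions of algebraic degree at most `n/2` -/
def lowDeg (n : ℕ) : Set ((Fin n → ZMod 2) → ZMod 2) :=
  {f | ∃ p : MvPolynomial (Fin n) (ZMod 2), p.totalDegree ≤ n / 2 ∧
    ∀ x, MvPolynomial.eval x p = f x}

theorem lowDeg_card {n : ℕ} (hn : 1 ≤ n) (he : Even n) :
    (2 : ℝ) ^ ((2 : ℝ) ^ n / 2) ≤ ((lowDeg n).ncard : ℝ) := by
  obtain ⟨m, hm⟩ := he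
  obtain rfl : n = 2 * m := by omega
  have h := J6.card_lowdeg m (by omega)
  have e1 : (lowDeg (2 * m)).ncard = Nat.card {f : (Fin (2 * m) → ZMod 2) → ZMod 2 //
        ∃ p : MvPolynomial (Fin (2 * m)) (ZMod 2),
            p.totalDegree ≤ m ∧ ∀ x, MvPolynomial.eval x p = f x} := by
    rw [← Nat.card_coe_set_eq]
    unfold lowDeg
    rw [show 2 * m / 2 = m by omega]
    rfl
  have e2 : (2 : ℝ) ^ (2 * m) / 2 = ((2 ^ (2 * m - 1) : ℕ) : ℝ) := by
    push_cast
    rw [pow_sub₀ _ (by norm_num) (by omega)]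
    ring
  rw [e1, e2, Real.rpow_natCast]
  exact_mod_cast h

theorem proportion {k n : ℕ} (hn : 1 ≤ n) (he : Even n) :
    ((bentSums k n).ncard : ℝ) ≤
      2 ^ ((k : ℝ) * (1015 * (2 ^ n / (n : ℝ) ^ ((1 : ℝ) / 12))) - 2 ^ n / 2) *
        ((lowDeg n).ncard : ℝ) := by
  have h1 := bentSums_le (k := k) hn he
  have h2 := lowDeg_card hn he
  rw [Real.rpow_sub (by norm_num)]
  refine h1.trans ?_
  have h3 : (0 : ℝ) < 2 ^ ((2 : ℝ) ^ n / 2) := by positivity
  rw [div_mul_eq_mul_div, le_div_iff₀ h3]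
  exact mul_le_mul_of_nonneg_left h2 (by positivity)

end Pool.Agent.Y371.Bent
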